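import Pool.Agent.Lib.MP_1f45fc_nt.V.MainV
import Pool.Agent.Lib.MP_1f45fc_nt.V.Geo
import Pool.Agent.Lib.MP_1f45fc_nt.V.Conv
import Pool.Agent.Lib.MP_1f45fc_nt.V.Bound
import Pool.Agent.Lib.MP_1f45fc_nt.V.Converse
import Pool.Agent.Lib.MP_1f45fc_nt.V.Salem

set_option autoImplicit false

/-!
# Accumulation points of the multipliers of level `L`
-/

open Polynomial Filter Topology

namespace Pool.Agent.Results.MP_1f45fc_nt.AccumulationPoints

/-- `Mult L b`: `b > 1`, and there are a real vector space `V` (of any dimension) with a symmetric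
bilinear form `B`, a linear isometry `g` of `B` with eigenvectors `u`, `v` for `b`, `b⁻¹`,
`B(u,v) ≠ 0`, `B ≥ 0` on the orthogonal complement of `u`, `v` (so the signature is Lorentzian,
and `log b` is the translation length of `g` along its axis), and a vector `x`, not orthogonal to
`u` nor to `v`, all of whose products `B(x, g ^ k x)` with its images are integers, with
`|B(x,x)| ≤ L` and `|B(x,g x)| ≤ L`. -/
def Mult (L b : ℝ) : Prop :=
  1 < b ∧ ∃ (V : Type) (_ : AddCommGroup V) (_ : Module ℝ V) (B : V →ₗ[ℝ] V →ₗ[ℝ] ℝ)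
    (g : V →ₗ[ℝ] V) (u v x : V),
    (∀ y z, B y z = B z y) ∧ (∀ y z, B (g y) (g z) = B y z) ∧ g u = b • u ∧ g v = b⁻¹ • v ∧
    B u v ≠ 0 ∧ (∀ y, B y u = 0 → B y v = 0 → 0 ≤ B y y) ∧
    B x u ≠ 0 ∧ B x v ≠ 0 ∧ (∀ k : ℕ, ∃ n : ℤ, B x ((g ^ k) x) = n) ∧
    |B x x| ≤ L ∧ |B x (g x)| ≤ L

/-- Pisot numbers: real algebraic integers `> 1` whose other conjugates have modulus `< 1`. -/
def IsPisot (b : ℝ) : Prop :=
  IsIntegral ℤ b ∧ 1 < b ∧ ∀ z : ℂ, aeval z (minpoly ℤ b) = 0 → z ≠ (b : ℂ) → ‖z‖ < 1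

/-- Salem numbers: real algebraic integers `> 1` whose other conjugates have modulus `≤ 1`, at
least one of them having modulus `1`. -/
def IsSalem (b : ℝ) : Prop :=
  IsIntegral ℤ b ∧ 1 < b ∧ (∀ z : ℂ, aeval z (minpoly ℤ b) = 0 → z ≠ (b : ℂ) → ‖z‖ ≤ 1) ∧
    ∃ z : ℂ, aeval z (minpoly ℤ b) = 0 ∧ ‖z‖ = 1

lemma lev_of_mult {L b : ℝ} (h : Mult L b) : Pool.Agent.MP1f45fc.V.Lev L b := by
  obtain ⟨hb, V, _, _, B, g, u, v, x, h1, h2, h3, h4, h5, h6, h7, h8, h9, h10, h11⟩ := h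
  exact Pool.Agent.MP1f45fc.V.lev_of_geo B g b L u v x h1 h2 hb h3 h4 h6 h5 h7 h8 h10 h11 h9

lemma mult_of_lev {L b : ℝ} (h : Pool.Agent.MP1f45fc.V.Lev L b) : Mult L b :=
  Pool.Agent.MP1f45fc.V.geo_of_lev h

/-- Every Salem number is a multiplier of some level; for every `L ≥ 1`, the accumulation points
of the set of all multipliers of level `L` are exactly the Pisot numbers, and only finitely many
multipliers of level `L` are at most `1.324`. -/
theorem result :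
    (∀ b : ℝ, IsSalem b → ∃ L : ℝ, Mult L b) ∧
    ∀ L : ℝ, 1 ≤ L →
      {c : ℝ | AccPt c (𝓟 {b : ℝ | Mult L b})} = {c : ℝ | IsPisot c} ∧
        {b : ℝ | Mult L b ∧ b ≤ 331 / 250}.Finite := by
  refine ⟨fun b hb => ?_, fun L hL => ?_⟩
  · obtain ⟨L, h⟩ := Pool.Agent.MP1f45fc.V.lev_of_salem hb.1 hb.2.1 hb.2.2.1 hb.2.2.2
    exact ⟨L, mult_of_lev h⟩
  have hset : {b : ℝ | Mult L b} = {b | Pool.Agent.MP1f45fc.V.Lev L b} :=
    Set.ext fun b => ⟨lev_of_mult, mult_of_lev⟩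
  refine ⟨Set.ext fun c => ⟨fun hc => ?_, fun hc => ?_⟩, ?_⟩
  · rw [Set.mem_ofPred_eq, hset] at hc
    exact Pool.Agent.MP1f45fc.V.acc_pisot L hc
  · rw [Set.mem_ofPred_eq, hset]
    exact Pool.Agent.MP1f45fc.V.acc_of_pisot hc hL
  · refine (Pool.Agent.MP1f45fc.V.lev_finite_of L (331 / 250) fun b hb =>
      Pool.Agent.MP1f45fc.V.pisot_gt hb).subset ?_
    exact fun b hb => ⟨lev_of_mult hb.1, hb.2⟩

end Pool.Agent.Results.MP_1f45fc_nt.AccumulationPoints
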