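import Mathlib
import Pool.Agent.Lib.MP_1f45fc_nt.S.PMain
import Pool.Agent.Lib.MP_1f45fc_nt.S.Mirror

set_option autoImplicit false

namespace Pool.Agent.Results.MP_1f45fc_nt.MirrorCrossing

/-- Let `B` be a symmetric bilinear form on a real vector space `V` (of any dimension), `g` a linear
map preserving `B` with eigenvectors `u`, `v` for the eigenvalues `b > 1` and `b⁻¹`, such that `B`
is nonnegative on the orthogonal complement of `u` and `v` (for a form of signature `(n, 1)`: `g` is
a hyperbolic isometry whose axis has the ends `u`, `v` and whose translation length is `log b`).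
Let `x ∈ V`, `B x x > 0`, `2 * B x (g ^ k x) / B x x ∈ ℤ` for all `k ≥ 1` (for example, the
reflection in `x` preserves a lattice which contains `x` as a primitive vector and is preserved by
`g`). Suppose that the hyperplane orthogonal to `x` crosses the axis, i.e.
`B x u * B x v * B u v > 0`, or that both ends of the axis are strictly on the same side of it and
`2 * B x (g ^ a x) = B x x` for some `a ≥ 1` (the hyperplane and its image under `g ^ a` meet at an
angle of 60 degrees). Then `b` is at least Lehmer's number: every root `l > 1` of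
`X ^ 10 + X ^ 9 - X ^ 7 - X ^ 6 - X ^ 5 - X ^ 4 - X ^ 3 + X + 1` is at most `b`. -/
theorem result {V : Type*} [AddCommGroup V] [Module ℝ V] (B : V →ₗ[ℝ] V →ₗ[ℝ] ℝ)
    (hB : ∀ y z, B y z = B z y) (g : V →ₗ[ℝ] V) (hg : ∀ y z, B (g y) (g z) = B y z)
    (b : ℝ) (hb : 1 < b) (u v : V) (hu : g u = b • u) (hv : g v = b⁻¹ • v)
    (hpos : ∀ y, B y u = 0 → B y v = 0 → 0 ≤ B y y)
    (x : V) (hx : 0 < B x x) (hint : ∀ k : ℕ, 1 ≤ k → ∃ m : ℤ, 2 * B x ((g ^ k) x) = m * B x x)
    (hcase : 0 < B x u * B x v * B u v ∨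
      (B x u * B x v * B u v < 0 ∧ ∃ a : ℕ, 1 ≤ a ∧ 2 * B x ((g ^ a) x) = B x x))
    (l : ℝ) (hl : 1 < l)
    (hroot : l ^ 10 + l ^ 9 - l ^ 7 - l ^ 6 - l ^ 5 - l ^ 4 - l ^ 3 + l + 1 = 0) : l ≤ b := by
  obtain ⟨r, p, hr⟩ := Pool.Agent.MP1f45fc.S.pseq_of_mirror B hB g hg hb hu hv hpos hx hint hcase
  exact Pool.Agent.MP1f45fc.S.pseq_root hb hr l hl hroot

end Pool.Agent.Results.MP_1f45fc_nt.MirrorCrossing
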