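import Mathlib
import Pool.Agent.Lib.MP_1f45fc_nt.S.Final
import Pool.Agent.Lib.MP_1f45fc_nt.S.PMain

set_option autoImplicit false

open Polynomial

namespace Pool.Agent.Results.MP_1f45fc_nt.SalemPisot

/-- `P` is a Pisot polynomial with Pisot number `θ`: a monic integer polynomial with the real root
`θ > 1`, which is simple, and all of whose other complex roots have modulus less than `1` (so `P`
is `X ^ k` times the minimal polynomial of `θ`). -/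
def IsPisotPoly (P : ℤ[X]) (θ : ℝ) : Prop :=
  P.Monic ∧ 1 < θ ∧ aeval θ P = 0 ∧ aeval θ (derivative P) ≠ 0 ∧
    ∀ z : ℂ, aeval z P = 0 → z ≠ (θ : ℂ) → ‖z‖ < 1

/-- Let `P` be a Pisot polynomial with Pisot number `θ`, `P*` its reciprocal polynomial, `n ≥ 1`,
`ε = ±1`, and let `s = ∑ s_a X ^ a` be the Taylor series of `X ^ n P / (X ^ n P + ε P*)` at `0`.
If `n ≥ 2`, or `θ ≤ 2`, or `s_a ≤ 0` for some `a ≥ 1`, then every real root `β > 1` of Salem's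
polynomial `X ^ n P + ε P*` is at least Lehmer's number (the real root `τ > 1` of
`X ^ 10 + X ^ 9 - X ^ 7 - X ^ 6 - X ^ 5 - X ^ 4 - X ^ 3 + X + 1`). -/
theorem result (P : ℤ[X]) (θ : ℝ) (hP : IsPisotPoly P θ) (n : ℕ) (hn : 1 ≤ n) (ε : ℤ)
    (hε : ε = 1 ∨ ε = -1) (s : PowerSeries ℤ)
    (hs : ((X ^ n * P + C ε * P.reverse : ℤ[X]) : PowerSeries ℤ) * s =
      ((X ^ n * P : ℤ[X]) : PowerSeries ℤ))
    (hcase : 2 ≤ n ∨ θ ≤ 2 ∨ ∃ a, 1 ≤ a ∧ PowerSeries.coeff a s ≤ 0) (β : ℝ) (hβ : 1 < β)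
    (hroot : β ^ n * aeval β P + ε * aeval β P.reverse = 0) (τ : ℝ)
    (hτ : τ ^ 10 + τ ^ 9 - τ ^ 7 - τ ^ 6 - τ ^ 5 - τ ^ 4 - τ ^ 3 + τ + 1 = 0) : τ ≤ β := by
  obtain ⟨hm, hθ, hθP, hθs, hroots⟩ := hP
  refine Pool.Agent.MP1f45fc.S.salem_all_of τ ?_ ?_ P hm θ hθ hθP hθs hroots n ε hn hε s ?_ hcase
    β hβ hroot
  · rw [Pool.Agent.MP1f45fc.SalemC.aeval_lehmer, hτ]
  · intro β' r p hβ' hr
    rcases le_or_gt τ 1 with h | h
    · linarith
    · exact Pool.Agent.MP1f45fc.S.pseq_root hβ' hr τ h hτ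
  · have h1 : (C ε * C ε : ℤ[X]) = 1 := by
      rw [← C_mul]
      rcases hε with h | h <;> rw [h] <;> norm_num
    have h2 : P.reverse + C ε * X ^ n * P = C ε * (X ^ n * P + C ε * P.reverse) := by
      linear_combination (-P.reverse) * h1
    rw [h2, Polynomial.coe_mul, mul_assoc, hs, ← Polynomial.coe_mul, mul_assoc]

end Pool.Agent.Results.MP_1f45fc_nt.SalemPisot
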