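import Mathlib
import Pool.Agent.Lib.MP_1f45fc_nt.Parry
import Pool.Agent.Lib.MP_1f45fc_nt_SQ.FinalB

set_option autoImplicit false

open Polynomial

namespace Pool.Agent.Results.MP_1f45fc_nt.SparseParryPowers

/-- `β` is a Parry number: the orbit of `1` under `x ↦ fract (β * x)` is finite (that is, the
greedy `β`-expansion of `1` is finite or eventually periodic). -/
def IsParry (β : ℝ) : Prop :=
  (Set.range (fun k : ℕ => (fun x : ℝ => Int.fract (β * x))^[k] (1 : ℝ))).Finite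

/-- `β` is a Perron number: a real algebraic integer `β > 1` all of whose other conjugates have
modulus strictly less than `β`. -/
def IsPerron (β : ℝ) : Prop :=
  1 < β ∧ IsIntegral ℤ β ∧
    ∀ z : ℂ, aeval z (minpoly ℤ β) = 0 → z ≠ (β : ℂ) → ‖z‖ < β

/-- `β` is a Pisot number or a Salem number: a real algebraic integer `β > 1` all of whose other
conjugates have modulus at most `1`. -/
def IsPisotOrSalem (β : ℝ) : Prop :=
  1 < β ∧ IsIntegral ℤ β ∧
    ∀ z : ℂ, aeval z (minpoly ℤ β) = 0 → z ≠ (β : ℂ) → ‖z‖ ≤ 1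

/-- The Perron numbers `β ≤ c` of degree at most `n` all of whose other conjugates have modulus
at most `2 ^ (K / n)`. -/
def nearDisc (c : ℝ) (n : ℕ) (K : ℝ) : Set ℝ :=
  {β : ℝ | IsPerron β ∧ β ≤ c ∧ (minpoly ℤ β).natDegree ≤ n ∧
    ∀ z : ℂ, aeval z (minpoly ℤ β) = 0 → z ≠ (β : ℂ) → ‖z‖ ≤ (2 : ℝ) ^ (K / n)}

/-- The Pisot and Salem numbers up to `c` of degree at most `n`. -/
def pisotSalem (c : ℝ) (n : ℕ) : Set ℝ :=
  {β : ℝ | IsPisotOrSalem β ∧ β ≤ c ∧ (minpoly ℤ β).natDegree ≤ n}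

/-- The Perron numbers `β ≤ c` of degree at most `n` such that `β ^ m` is a Parry number for at
least one exponent `m ≥ n / K`. -/
def parryPower (c : ℝ) (n : ℕ) (K : ℝ) : Set ℝ :=
  {β : ℝ | IsPerron β ∧ β ≤ c ∧ (minpoly ℤ β).natDegree ≤ n ∧
    ∃ m : ℕ, (n : ℝ) ≤ K * m ∧ IsParry (β ^ m)}

/-- The exceptions of degree at most `n` up to `c`: the Perron numbers `β ≤ c` of degree at most
`n` such that `β ^ m` is a Parry number for infinitely many `m ≥ 1`. -/
def exceptions (c : ℝ) (n : ℕ) : Set ℝ :=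
  {β : ℝ | IsPerron β ∧ β ≤ c ∧ (minpoly ℤ β).natDegree ≤ n ∧
    {m : ℕ | 1 ≤ m ∧ IsParry (β ^ m)}.Infinite}

/-- For every real `c` there is a constant `C` such that for all `n ≥ 2` and all real `K ≥ 1`
there are at most `exp (C ^ K * sqrt (n * log n))` Perron numbers `β ≤ c` of degree at most `n`
all of whose other conjugates have modulus at most `2 ^ (K / n)`; these include all Pisot and
Salem numbers and all Perron numbers `β` (`β ≤ c`, of degree at most `n`) such that `β ^ m` is a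
Parry number for one exponent `m ≥ n / K`, hence all the exceptions. -/
theorem result (c : ℝ) : ∃ C : ℝ, ∀ n : ℕ, 2 ≤ n → ∀ K : ℝ, 1 ≤ K →
    (nearDisc c n K).Finite ∧
      ((nearDisc c n K).ncard : ℝ) ≤ Real.exp (C ^ K * Real.sqrt (n * Real.log n)) ∧
      pisotSalem c n ⊆ nearDisc c n K ∧ parryPower c n K ⊆ nearDisc c n K ∧
      exceptions c n ⊆ parryPower c n K := by
  obtain ⟨C, hC⟩ := Pool.Agent.SalemCount.mainB c
  refine ⟨C, fun n hn K hK => ?_⟩
  have hn0 : (2 : ℝ) ≤ n := by exact_mod_cast hn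
  have hmain := hC n hn K hK (nearDisc c n K) fun β hβ => by
    obtain ⟨⟨h1, hint, hper⟩, hc, hdeg, hz⟩ := hβ
    exact ⟨h1, hc, hint, hdeg, hper, hz⟩
  refine ⟨hmain.1, hmain.2, ?_, ?_, ?_⟩
  · rintro β ⟨⟨h1, hint, hconj⟩, hc, hdeg⟩
    refine ⟨⟨h1, hint, fun z hz hzβ => (hconj z hz hzβ).trans_lt h1⟩, hc, hdeg,
      fun z hz hzβ => (hconj z hz hzβ).trans ?_⟩
    exact Real.one_le_rpow (by norm_num) (by positivity)
  · rintro β ⟨⟨h1, hint, hper⟩, hc, hdeg, m, hm, hfin⟩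
    have hm0 : m ≠ 0 := by
      intro h0
      rw [h0, Nat.cast_zero, mul_zero] at hm
      linarith
    have hmR : (0 : ℝ) < m := by exact_mod_cast Nat.pos_of_ne_zero hm0
    refine ⟨⟨h1, hint, hper⟩, hc, hdeg, fun z hz hzβ => ?_⟩
    have h2 : ‖z‖ ^ m ≤ 2 := by
      refine Pool.Agent.MP1f45fc.conj_pow_le_two hint hfin hz fun h => ?_
      have h2 := congrArg norm h
      rw [norm_pow, norm_pow, Complex.norm_real, Real.norm_eq_abs,
        abs_of_pos (by linarith : (0 : ℝ) < β)] at h2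
      have h3 := pow_lt_pow_left₀ (hper z hz hzβ) (norm_nonneg z) hm0
      linarith
    have h3 : (2 : ℝ) ≤ ((2 : ℝ) ^ (K / n)) ^ m := by
      rw [← Real.rpow_natCast, ← Real.rpow_mul (by norm_num)]
      have h4 : (1 : ℝ) ≤ K / n * m := by
        rw [div_mul_eq_mul_div, le_div_iff₀ (by linarith)]
        linarith
      have h5 := Real.rpow_le_rpow_of_exponent_le (by norm_num : (1 : ℝ) ≤ 2) h4
      rw [Real.rpow_one] at h5
      exact h5
    exact le_of_pow_le_pow_left₀ hm0 (by positivity) (h2.trans h3)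
  · rintro β ⟨hβ, hc, hdeg, hinf⟩
    obtain ⟨N, hN⟩ := exists_nat_ge (n : ℝ)
    obtain ⟨m, ⟨hm1, hmfin⟩, hmN⟩ := hinf.exists_gt N
    refine ⟨hβ, hc, hdeg, m, ?_, hmfin⟩
    have h1 : (N : ℝ) ≤ m := by exact_mod_cast hmN.le
    have h2 : (m : ℝ) ≤ K * m := le_mul_of_one_le_left (Nat.cast_nonneg m) hK
    linarith

end Pool.Agent.Results.MP_1f45fc_nt.SparseParryPowers
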